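import Pool.Agent.TH280.DH.Stm

/-!
The easy closure properties: constants, scaling, change of the sign of `G`.
-/

set_option autoImplicit false

namespace Pool.Agent.TH928.DH

open Complex Polynomial Filter Topology
open Pool.Agent.TH280.DH

theorem const : S_CONST := by
  intro p x y _ η hη
  refine ⟨Empty, inferInstance, C (x : ℂ), C (y : ℂ), fun i => i.elim, ?_⟩
  have hav : ∀ t : ℝ, av (fun z => |((C (t : ℂ) : ℂ[X]).eval z).re| ^ p) = |t| ^ p := by
    intro t
    have h1 : (fun z : ℂ => |((C (t : ℂ) : ℂ[X]).eval z).re| ^ p) = fun _ => |t| ^ p := by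
      funext z
      rw [eval_C, Complex.ofReal_re]
    rw [h1]
    unfold av
    exact Real.circleAverage_const _ _ _
  refine ⟨eval_C, eval_C, fun i => i.elim, fun z _ => ?_, fun z _ => ?_, ?_, ?_⟩
  · simp
  · simp only [Finset.univ_eq_empty, Finset.sum_empty]
    positivity
  · rw [hav]
    linarith
  · rw [hav]
    linarith

theorem scale : S_SCALE := by
  intro p t x y A B hp hG
  rcases eq_or_ne t 0 with rfl | ht
  · have h1 := const p 0 0 hp
    have h2 : |(0 : ℝ)| ^ p = 0 := by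
      rw [abs_zero, Real.zero_rpow (by linarith)]
    rw [h2] at h1
    rw [zero_mul, zero_mul, h2, zero_mul, zero_mul]
    exact h1
  intro η hη
  have ht0 : 0 < |t| := abs_pos.2 ht
  have htp : 0 < |t| ^ p := Real.rpow_pos_of_pos ht0 p
  obtain ⟨ι, _, F, G, W, h⟩ := hG (min (η / |t|) (η / |t| ^ p)) (by positivity)
  refine ⟨ι, inferInstance, C (t : ℂ) * F, C (t : ℂ) * G, fun i => C (t : ℂ) * W i, ?_⟩
  have hη1 : |t| * min (η / |t|) (η / |t| ^ p) ≤ η := by
    calc |t| * min (η / |t|) (η / |t| ^ p) ≤ |t| * (η / |t|) :=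
          mul_le_mul_of_nonneg_left (min_le_left _ _) ht0.le
      _ = η := by field_simp
  have hη2 : |t| ^ p * min (η / |t|) (η / |t| ^ p) ≤ η := by
    calc |t| ^ p * min (η / |t|) (η / |t| ^ p) ≤ |t| ^ p * (η / |t| ^ p) :=
          mul_le_mul_of_nonneg_left (min_le_right _ _) htp.le
      _ = η := by field_simp
  have hη0 : 0 ≤ min (η / |t|) (η / |t| ^ p) := by positivity
  have hav : ∀ P : ℂ[X], av (fun z => |((C (t : ℂ) * P).eval z).re| ^ p) =
      |t| ^ p * av (fun z => |(P.eval z).re| ^ p) := by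
    intro P
    have h1 : (fun z : ℂ => |((C (t : ℂ) * P).eval z).re| ^ p) =
        fun z => (|t| ^ p) • (|(P.eval z).re| ^ p) := by
      funext z
      rw [eval_mul, eval_C, Complex.re_ofReal_mul, abs_mul,
        Real.mul_rpow (abs_nonneg _) (abs_nonneg _), smul_eq_mul]
    rw [h1]
    unfold av
    rw [Real.circleAverage_fun_smul, smul_eq_mul]
  have hn : ‖(t : ℂ)‖ = |t| := by rw [Complex.norm_real, Real.norm_eq_abs]
  have hd : ∀ (P : ℂ[X]) (z : ℂ), ‖(derivative (C (t : ℂ) * P)).eval z‖ ^ 2 =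
      |t| ^ 2 * ‖(derivative P).eval z‖ ^ 2 := by
    intro P z
    rw [derivative_C_mul, eval_mul, eval_C, norm_mul, hn, mul_pow]
  refine ⟨?_, ?_, fun i => ?_, fun z hz => ?_, fun z hz => ?_, ?_, ?_⟩
  · rw [eval_mul, eval_C, h.F0]
    push_cast
    ring
  · rw [eval_mul, eval_C, h.G0]
    push_cast
    ring
  · rw [eval_mul, h.W0, mul_zero]
  · rw [hd, hd]
    have h1 : ∑ i, ‖(derivative (C (t : ℂ) * W i)).eval z‖ ^ 2 =
        |t| ^ 2 * ∑ i, ‖(derivative (W i)).eval z‖ ^ 2 := by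
      rw [Finset.mul_sum]
      exact Finset.sum_congr rfl fun i _ => hd (W i) z
    rw [h1, ← mul_add]
    exact mul_le_mul_of_nonneg_left (h.grad z hz) (by positivity)
  · have h1 : ∑ i, ‖(C (t : ℂ) * W i).eval z‖ ^ 2 = |t| ^ 2 * ∑ i, ‖(W i).eval z‖ ^ 2 := by
      rw [Finset.mul_sum]
      refine Finset.sum_congr rfl fun i _ => ?_
      rw [eval_mul, eval_C, norm_mul, hn, mul_pow]
    rw [h1]
    calc |t| ^ 2 * ∑ i, ‖(W i).eval z‖ ^ 2
        ≤ |t| ^ 2 * min (η / |t|) (η / |t| ^ p) ^ 2 :=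
          mul_le_mul_of_nonneg_left (h.small z hz) (by positivity)
      _ = (|t| * min (η / |t|) (η / |t| ^ p)) ^ 2 := by rw [mul_pow]
      _ ≤ η ^ 2 := pow_le_pow_left₀ (by positivity) hη1 2
  · rw [hav]
    have h1 := mul_le_mul_of_nonneg_left h.avF htp.le
    rw [mul_add] at h1
    linarith
  · rw [hav]
    have h1 := mul_le_mul_of_nonneg_left h.avG htp.le
    rw [mul_sub] at h1
    linarith

theorem flip : S_FLIP := by
  intro p x y A B _ hG η hη
  obtain ⟨ι, _, F, G, W, h⟩ := hG η hη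
  refine ⟨ι, inferInstance, F, -G, W, ?_⟩
  refine ⟨h.F0, ?_, h.W0, fun z hz => ?_, h.small, h.avF, ?_⟩
  · rw [eval_neg, h.G0]
    push_cast
    rfl
  · rw [derivative_neg, eval_neg, norm_neg]
    exact h.grad z hz
  · have h1 : (fun z : ℂ => |((-G).eval z).re| ^ p) = fun z => |(G.eval z).re| ^ p := by
      funext z
      rw [eval_neg, Complex.neg_re, abs_neg]
    rw [h1]
    exact h.avG

end Pool.Agent.TH928.DH
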